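import Pool.Agent.Run7.h105.EO.I

/-! # Project EO: the assembly -/

set_option autoImplicit false

open Cardinal Set

noncomputable section

namespace Pool.Agent.Run7.h105.EO

theorem B_add_left {Λ : Type} (A : Λ → Set Λ) (u u' w : Λ →₀ ZMod 3) :
    B A (u + u') w = B A u w + B A u' w := by
  classical
  unfold B
  rw [Finsupp.sum_add_index']
  · intro γ
    rw [Finsupp.sum]
    exact Finset.sum_eq_zero fun β _ => by simp
  · intro γ b c
    rw [← Finsupp.sum_add]
    refine Finset.sum_congr rfl fun β _ => ?_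
    dsimp only
    split_ifs <;> ring

theorem B_add_right {Λ : Type} (A : Λ → Set Λ) (u w w' : Λ →₀ ZMod 3) :
    B A u (w + w') = B A u w + B A u w' := by
  classical
  unfold B
  rw [← Finsupp.sum_add]
  refine Finset.sum_congr rfl fun γ _ => ?_
  dsimp only
  rw [Finsupp.sum_add_index']
  · intro β
    simp
  · intro β b c
    split_ifs <;> ring

theorem B_zero_left {Λ : Type} (A : Λ → Set Λ) (w : Λ →₀ ZMod 3) : B A 0 w = 0 := by
  have h := B_add_left A 0 0 w
  rw [add_zero] at h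
  exact left_eq_add.1 h

theorem B_zero_right {Λ : Type} (A : Λ → Set Λ) (w : Λ →₀ ZMod 3) : B A w 0 = 0 := by
  have h := B_add_right A w 0 0
  rw [add_zero] at h
  exact left_eq_add.1 h

theorem B_neg_left {Λ : Type} (A : Λ → Set Λ) (u w : Λ →₀ ZMod 3) : B A (-u) w = - B A u w := by
  have h := B_add_left A u (-u) w
  rw [add_neg_cancel, B_zero_left] at h
  exact (neg_eq_of_add_eq_zero_right h.symm).symm

theorem B_neg_right {Λ : Type} (A : Λ → Set Λ) (u w : Λ →₀ ZMod 3) : B A u (-w) = - B A u w := by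
  have h := B_add_right A u w (-w)
  rw [add_neg_cancel, B_zero_right] at h
  exact (neg_eq_of_add_eq_zero_right h.symm).symm

/-- The group of the pairs `(v, a)` with `(v, a) (w, b) = (v + w, a + b + B v w)`. -/
@[ext] structure Hei {Λ : Type} (A : Λ → Set Λ) where
  v : Λ →₀ ZMod 3
  a : ZMod 3

variable {Λ : Type} {A : Λ → Set Λ}

instance : Mul (Hei A) := ⟨fun x y => ⟨x.v + y.v, x.a + y.a + B A x.v y.v⟩⟩
instance : One (Hei A) := ⟨⟨0, 0⟩⟩
instance : Inv (Hei A) := ⟨fun x => ⟨-x.v, -x.a + B A x.v x.v⟩⟩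

theorem mul_def (x y : Hei A) : x * y = ⟨x.v + y.v, x.a + y.a + B A x.v y.v⟩ := rfl
theorem one_def : (1 : Hei A) = ⟨0, 0⟩ := rfl
theorem inv_def (x : Hei A) : x⁻¹ = ⟨-x.v, -x.a + B A x.v x.v⟩ := rfl

@[simp] theorem mul_v (x y : Hei A) : (x * y).v = x.v + y.v := rfl
@[simp] theorem mul_a (x y : Hei A) : (x * y).a = x.a + y.a + B A x.v y.v := rfl
@[simp] theorem one_v : (1 : Hei A).v = 0 := rfl
@[simp] theorem one_a : (1 : Hei A).a = 0 := rfl
@[simp] theorem inv_v (x : Hei A) : (x⁻¹).v = -x.v := rfl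
@[simp] theorem inv_a (x : Hei A) : (x⁻¹).a = -x.a + B A x.v x.v := rfl

instance : Group (Hei A) :=
  Group.ofLeftAxioms
    (by
      intro x y z
      ext1
      · simp [add_assoc]
      · simp only [mul_a, mul_v, B_add_left, B_add_right]
        ring)
    (by
      intro x
      ext1
      · simp
      · simp [B_zero_left])
    (by
      intro x
      ext1
      · simp
      · simp only [mul_a, inv_a, inv_v, B_neg_left, one_a]
        ring)

/-- The central element. -/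
def nn (A : Λ → Set Λ) : Hei A := ⟨0, 1⟩

theorem nn_pow (k : ℕ) : (nn A) ^ k = ⟨0, (k : ZMod 3)⟩ := by
  induction k with
  | zero => simp [one_def]
  | succ k ih =>
    rw [pow_succ, ih]
    ext1
    · simp [nn]
    · simp [nn, B_zero_left]

theorem nn_ne : nn A ≠ 1 := by
  intro h
  have := congrArg Hei.a h
  simp [nn] at this

theorem nn_three : nn A ^ 3 = 1 := by
  rw [nn_pow, one_def]
  congr 1

theorem nn_comm (g : Hei A) : g * nn A = nn A * g := by
  ext1
  · simp [nn]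
  · simp only [nn, mul_a, B_zero_left, B_zero_right]
    ring

theorem comm_eq (g h : Hei A) : g * h * g⁻¹ * h⁻¹ = ⟨0, B A g.v h.v - B A h.v g.v⟩ := by
  ext1
  · simp
  · simp only [mul_a, mul_v, inv_a, inv_v, B_add_left, B_neg_right, B_neg_left]
    ring

theorem eq_pow (z : ZMod 3) : (⟨0, z⟩ : Hei A) = nn A ^ z.val := by
  rw [nn_pow, ZMod.natCast_val, ZMod.cast_id', id]

theorem sq_one : ∀ z : ZMod 3, z ≠ 0 → (1 : ZMod 3) = ((z.val * z.val : ℕ) : ZMod 3) := by
  decide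

theorem nn_mem {H : Subgroup (Hei A)} {z : ZMod 3} (hz : z ≠ 0) (h : (⟨0, z⟩ : Hei A) ∈ H) : nn A ∈ H := by
  rw [eq_pow] at h
  have h2 : nn A = (nn A ^ z.val) ^ z.val := by
    rw [← pow_mul, nn_pow, nn, ← sq_one z hz]
  rw [h2]
  exact H.pow_mem h _

theorem main (hCARD : S_CARD) (hFAM : S_FAM) (hKEY : S_KEY) (hGEN : S_GEN) :
    ∀ κ : Cardinal.{0}, ∃ (G : Type) (_ : Group G),
      ∀ (V : Type) (X : SimpleGraph V),
        Nonempty (G ≃* SimpleGraph.Iso X X) →
        ∀ S : Set (Sym2 V), S ⊆ X.edgeSet →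
          (∀ e ∈ X.edgeSet, ∃ s ∈ S, ∃ φ : SimpleGraph.Iso X X, Sym2.map (⇑φ) s = e) →
          κ < Cardinal.mk S := by
  intro κ₀
  obtain ⟨Θ, M, s, hbase⟩ := hCARD (max κ₀ ℵ₀) (le_max_right _ _)
  obtain ⟨Λ, E, A, hfam⟩ := hFAM _ Θ M s hbase
  refine ⟨Hei A, inferInstance, ?_⟩
  intro V X hΦ S hS hcov
  obtain ⟨Φ⟩ := hΦ
  by_contra hcard
  have hSκ : #S ≤ max κ₀ ℵ₀ := (not_lt.1 hcard).trans (le_max_left _ _)
  obtain ⟨J, H, C, hJ, hC, hn, hcl⟩ := hGEN (max κ₀ ℵ₀) (le_max_right _ _) (Hei A) (nn A) nn_ne nn_three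
    nn_comm (fun g h => ⟨_, (comm_eq g h).trans (eq_pow _)⟩) V X Φ S hS hcov hSκ
  let U : J → AddSubgroup (Λ →₀ ZMod 3) := fun j =>
    { carrier := {v | ∃ a, (⟨v, a⟩ : Hei A) ∈ H j}
      zero_mem' := ⟨0, (H j).one_mem⟩
      add_mem' := by
        rintro x y ⟨a, ha⟩ ⟨b, hb⟩
        exact ⟨_, (H j).mul_mem ha hb⟩
      neg_mem' := by
        rintro x ⟨a, ha⟩
        exact ⟨_, (H j).inv_mem ha⟩ }
  have hiso : ∀ j, ∀ u ∈ U j, ∀ u' ∈ U j, B A u u' = B A u' u := by
    rintro j u ⟨a, ha⟩ u' ⟨a', ha'⟩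
    by_contra hne
    apply hn j
    have h1 := (H j).mul_mem ((H j).mul_mem ((H j).mul_mem ha ha') ((H j).inv_mem ha)) ((H j).inv_mem ha')
    rw [comm_eq] at h1
    exact nn_mem (sub_ne_zero.2 hne) h1
  obtain ⟨α, hα1, hα2⟩ := hKEY _ Θ M Λ s E A hfam J U hJ hiso (Hei.v '' C) (Cardinal.mk_image_le.trans hC)
  have hall : ∀ g : Hei A, g.v α = 0 := by
    intro g
    have hg : g ∈ Subgroup.closure (C ∪ {nn A} ∪ ⋃ j, (H j : Set (Hei A))) := by
      rw [hcl]
      exact Subgroup.mem_top g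
    induction hg using Subgroup.closure_induction with
    | mem x hx =>
      rcases hx with (hx | hx) | hx
      · exact hα1 _ ⟨x, hx, rfl⟩
      · rw [mem_singleton_iff.1 hx]
        rfl
      · obtain ⟨j, hj⟩ := mem_iUnion.1 hx
        exact hα2 j x.v ⟨x.a, hj⟩
    | one => rfl
    | mul x y _ _ hx hy =>
      rw [mul_v, Finsupp.add_apply, hx, hy, add_zero]
    | inv x _ hx =>
      rw [inv_v, Finsupp.neg_apply, hx, neg_zero]
  have h1 := hall ⟨Finsupp.single α 1, 0⟩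
  rw [Finsupp.single_eq_same] at h1
  exact absurd h1 (by decide)

end Pool.Agent.Run7.h105.EO
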