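import Mathlib

/-!
# MP_0f290c_co (frozen S07199, FULL answer): groups without graph representations with few edge orbits

Closed statements with complete proofs. Theorem `t_X : S_X` in `Pool/Agent/Run7/<you>/EO/X.lean`.

The group: `θ = κ⁺`, `μ` strong limit of cofinality `θ` (`μ = beth_θ`), `Λ` of cardinality `2 ^ μ`, subsets
`A α ⊆ Λ` (`α ∈ Λ`) of size `≤ θ`, `V = Λ →₀ ZMod 3`, and `G = V × ZMod 3` with
`(v, a) (w, b) = (v + w, a + b + B v w)`, where `B v w = ∑ v γ w β [β ∈ A γ]`.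
-/

set_option autoImplicit false

open Cardinal Set

noncomputable section

namespace Pool.Agent.Run7.h105.EO

/-- The cardinals: `#Θ = κ⁺`, `#M` a strong limit of cofinality `> κ`, and `2 ^ #M` functions `Θ → M`,
two of which agree at `≤ κ` places only. -/
structure Base (κ : Cardinal.{0}) (Θ M : Type) (s : Set M → Θ → M) : Prop where
  inf : ℵ₀ ≤ κ
  theta : #Θ = Order.succ κ
  lt : #Θ < #M
  strong : ∀ ν : Cardinal.{0}, ν < #M → (2 : Cardinal.{0}) ^ ν < #M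
  sum : ∀ (J : Type) (f : J → Cardinal.{0}), #J ≤ κ → (∀ j, f j < #M) → Cardinal.sum f < #M
  ad : ∀ Z Z' : Set M, Z ≠ Z' → #{ξ : Θ | s Z ξ = s Z' ξ} ≤ κ

/-- A task: disjoint finite sets `D ξ ν` with marked elements `e ξ ν`. -/
structure IsTask {Θ M Λ : Type} (D : Θ → M → Finset Λ) (e : Θ → M → Λ) : Prop where
  mem : ∀ ξ ν, e ξ ν ∈ D ξ ν
  disj : ∀ ξ ν ξ' ν', (ξ, ν) ≠ (ξ', ν') → Disjoint (D ξ ν) (D ξ' ν')

/-- The family of sets: `E α ∩ E β` is of size `≤ κ`, and every task is treated. -/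
structure Fam (κ : Cardinal.{0}) (Θ M Λ : Type) (s : Set M → Θ → M) (E A : Λ → Set Λ) : Prop
    extends Base κ Θ M s where
  big : #M < #Λ
  sub : ∀ α, A α ⊆ E α
  small : ∀ α, #(A α) ≤ #Θ
  disj : ∀ α β, α ≠ β → #(E α ∩ E β : Set Λ) ≤ κ
  task : ∀ (D : Θ → M → Finset Λ) (e : Θ → M → Λ), IsTask D e → ∀ Y : Set Λ, #Y < #M →
    ∃ α, α ∉ Y ∧ ∃ Z : Set M, (∀ ξ, (D ξ (s Z ξ) : Set Λ) ⊆ E α) ∧
      A α = Set.range fun ξ => e ξ (s Z ξ)

/-- The bilinear form `B v w = ∑ v γ w β [β ∈ A γ]`. -/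
def B {Λ : Type} (A : Λ → Set Λ) (v w : Λ →₀ ZMod 3) : ZMod 3 :=
  open Classical in v.sum fun γ a => w.sum fun β b => if β ∈ A γ then a * b else 0

/-- CARD. `θ = κ⁺` (regular), `o = θ.ord`, `μ = ℶ_ o = ⨆ ξ < o, ℶ_ ξ` (`o` is a limit ordinal), `Θ = o.ToType`, `M`
of cardinality `μ`, e.g. `M = μ.ord.ToType`. `strong`: `isStrongLimit_beth`. `lt`: `θ ≤ ℶ_ o`, and `θ ≠ ℶ_ o` as
`θ = κ⁺ ≤ 2 ^ κ < ℶ_ o`. (`κ < θ ≤ ℶ_ o`.) `sum`: choose `ξ_j < o` with `f j ≤ ℶ_ ξ_j`; as `o` is of cofinality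
`θ > κ ≥ #J` there is `ξ < o` above all `ξ_j`, and `sum f ≤ κ * ℶ_ ξ < μ`. `ad`: let `M_ξ` (`ξ < o`) be the set of
the elements of `M` of rank `< (ℶ_ ξ).ord`, increasing in `ξ`, with union `M`, of cardinality `≤ ℶ_ ξ`. As
`2 ^ ℶ_ ξ = ℶ_ (ξ+1) ≤ μ` there are injections `c_ξ : Set M_ξ → M`; put `s Z ξ = c_ξ (Z ∩ M_ξ)`. If `Z ≠ Z'` they
differ at a point of some `M_ξ₀`, and then `s Z ξ ≠ s Z' ξ` for all `ξ ≥ ξ₀`; the set of `ξ < ξ₀` is of
cardinality `< θ`, so `≤ κ`. -/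
def S_CARD : Prop :=
  ∀ κ : Cardinal.{0}, ℵ₀ ≤ κ → ∃ (Θ M : Type) (s : Set M → Θ → M), Base κ Θ M s

/-- FAM. Let `Λ` be a type of cardinality `2 ^ #M` (e.g. `Λ = Set M`; choose a well-order `<` of `Λ` with
`#{β | β < α} < #Λ` for all `α`, `Cardinal.ord_eq`). The number of pairs `(D, e)`
is `≤ #Λ ^ #M = #Λ`, so there is a map `τ` from `Λ` to the pairs (tasks) such that every task is `τ α` for
`#Λ` elements `α` (use `#(Tasks × Λ) = #Λ`), in particular for some `α ∉ Y` as `#Y < #M < #Λ`.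
For a task `(D, e)` and `Z : Set M` put `E(D, Z) = ⋃ ξ, D ξ (s Z ξ)`. Claim: for a set `E'` of size `≤ #Θ` the set
of the `Z` with `κ < #(E' ∩ E(D, Z))` is of size `≤ 2 ^ #Θ`. Proof: let `P` be the set of the pairs `(ξ, ν)` with
`E' ∩ D ξ ν ≠ ∅`; as the `D ξ ν` are disjoint `#P ≤ #E' ≤ #Θ`. Map `Z` to the subset
`{(ξ, s Z ξ) ∈ P}` of `P`; there are `≤ 2 ^ #Θ` subsets. If `Z ≠ Z'` have the same subset `R` then `#R ≤ κ` by `ad`,
and `E' ∩ E(D, Z)` is contained in the union of the finite sets `D ξ ν`, `(ξ, ν) ∈ R`, so it is of size `≤ κ`.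
Hence the map is injective on the bad `Z`.
Now choose `Z_α` for `α ∈ Λ` by recursion on the well-order: `Z_α` is not bad for `(τ α, E_β)` for all `β < α`, where
`E_β = E(τ β, Z_β)` is of size `≤ #Θ`: possible, as the number of the bad `Z` is at most
`#{β | β < α} * 2 ^ #Θ < 2 ^ #M = #(Set M)` (`2 ^ #Θ < #M` by `strong`). `A α = range (fun ξ => e ξ (s Z_α ξ))`. -/
def S_FAM : Prop :=
  ∀ (κ : Cardinal.{0}) (Θ M : Type) (s : Set M → Θ → M), Base κ Θ M s →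
    ∃ (Λ : Type) (E A : Λ → Set Λ), Fam κ Θ M Λ s E A

/-- WSEQ. Choose a well-order of `Θ × M` (cardinality `#M`) with initial segments of size `< #M`, and choose
`w (ξ, ν)` by recursion: let `Y` be the union of the supports of the earlier `w'` and of the sets `A β`, `β` in the
support of an earlier `w'`; it has size `< #M`. The map `U ξ → (Y → ZMod 3) × (Y → ZMod 3)`,
`u ↦ (u y, B A u (single y 1))_y`, cannot be injective, as the right side is of size `< #M ≤ #(U ξ)` (`strong`;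
`3 ^ ν ≤ 4 ^ ν = 2 ^ (2 ν)`). Take `w = u' - u''` for two different elements with the same image: `w ≠ 0`,
`w` is zero on `Y`, and `B A w (single y 1) = 0` for `y ∈ Y` (`B` is additive in the first argument). For an
earlier `w'`: `B A w' (single γ 1) ≠ 0` implies `γ ∈ A β` for some `β` in the support of `w'`, so `γ ∈ Y`. -/
def S_WSEQ : Prop :=
  ∀ (Θ M Λ : Type) (A : Λ → Set Λ), ℵ₀ ≤ #Θ → #Θ < #M →
    (∀ ν : Cardinal.{0}, ν < #M → (2 : Cardinal.{0}) ^ ν < #M) → (∀ α, #(A α) ≤ #Θ) →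
    ∀ U : Θ → AddSubgroup (Λ →₀ ZMod 3), (∀ ξ, #M ≤ #(U ξ)) →
    ∃ w : Θ → M → (Λ →₀ ZMod 3), (∀ ξ ν, w ξ ν ∈ U ξ ∧ w ξ ν ≠ 0) ∧
      ∀ ξ ν ξ' ν', (ξ, ν) ≠ (ξ', ν') → Disjoint (w ξ ν).support (w ξ' ν').support ∧
        ∀ γ, B A (w ξ ν) (Finsupp.single γ 1) = 0 ∨ B A (w ξ' ν') (Finsupp.single γ 1) = 0

/-- KEY (from WSEQ). Call `j` big if `#M ≤ #(U j)`. The union `Y` of the supports of the elements of `C` and of `U j`,
`j` not big, is of size `< #M` (`sum`, and infinite sets of finitely supported functions have supports of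
total size at most their size, for finite ones use `ℵ₀ < #M`). If no `j` is big take any `α ∉ Y`. Otherwise choose
a map `j : Θ → big` all of whose fibres have size `> κ` (`#(Θ × big) = #Θ`), and `w` from WSEQ for `U (j ξ)`,
`D ξ ν = (w ξ ν).support`, `e ξ ν ∈ D ξ ν` arbitrary, a task; let `α ∉ Y` and `Z` be as in `task`. If `u ∈ U j` with
`u α ≠ 0` then `j` is big (as `α ∉ Y`). For `ξ` with `j ξ = j` let `w = w ξ (s Z ξ)`. Then `0 = B u w - B w u`, where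
`B u w = ∑ γ ∈ supp u, u γ ∑ β ∈ supp w ∩ A γ, w β` and `B w u = ∑ γ ∈ supp u, u γ B w (single γ 1)`. For all but
`≤ κ` of the `ξ`: `supp w ∩ A γ = ∅` for all `γ ∈ supp u`, `γ ≠ α` (the sets `supp w` are disjoint and contained in
`E α`, and `A γ ∩ E α` is of size `≤ κ`), `B w (single γ 1) = 0` for all `γ ∈ supp u` (each `γ` excludes
at most one `ξ`), and `supp w ∩ A α = {e ξ (s Z ξ)}`. So `0 = u α * w (e ξ (s Z ξ)) ≠ 0`, a contradiction. -/
def S_KEY : Prop :=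
  ∀ (κ : Cardinal.{0}) (Θ M Λ : Type) (s : Set M → Θ → M) (E A : Λ → Set Λ), Fam κ Θ M Λ s E A →
    ∀ (J : Type) (U : J → AddSubgroup (Λ →₀ ZMod 3)), #J ≤ κ →
    (∀ j, ∀ u ∈ U j, ∀ u' ∈ U j, B A u u' = B A u' u) →
    ∀ C : Set (Λ →₀ ZMod 3), #C ≤ κ → ∃ α : Λ, (∀ c ∈ C, c α = 0) ∧ ∀ j, ∀ u ∈ U j, u α = 0

/-- TRANS. `x` moved by `n`; `x` and `n ^ k g x` are connected by a path in the set of the vertices moved by `n`.
Proof: let `W` be the set of the `y` with `n ^ k y` connected with `x` (by such a path) for some `k`; it is stable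
under `n`, and an edge from `W` to a vertex outside of `W` has its end fixed by `n`. Hence the map `n_W` which is
`n` on `W` and the identity elsewhere is an automorphism of `X`, so `n_W = Φ m`. If `g x ∉ W` then also
`g W ∩ W = ∅` (`n` is central), `g m g⁻¹` is `n` on `g W` and the identity elsewhere, and `c = g m g⁻¹ m⁻¹` maps `g x`
to `n g x` and `n x` to `x`. But `c = n ^ k` for some `k`: `n ^ k g x = n g x` gives `n ^ (k - 1)` fixes
`g x`, so `k ≡ 1 mod 3` (a nontrivial power of `n` generates `⟨n⟩`, and `n g x = g n x ≠ g x`), and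
`n ^ k n x = x` gives `k ≡ 2 mod 3`. -/
def S_TRANS : Prop :=
  ∀ (G : Type) [Group G] (n : G), n ≠ 1 → n ^ 3 = 1 → (∀ g, g * n = n * g) →
    (∀ g h : G, ∃ k : ℕ, g * h * g⁻¹ * h⁻¹ = n ^ k) →
    ∀ (V : Type) (X : SimpleGraph V) (Φ : G ≃* SimpleGraph.Iso X X) (x : V), Φ n x ≠ x → ∀ g : G,
      ∃ k : ℕ, Relation.ReflTransGen (fun a b => X.Adj a b ∧ Φ n b ≠ b) x (Φ (n ^ k * g) x)

/-- GEN (from TRANS). Let `x` be moved by `n` and `K` the set of the vertices connected with `x` by a path of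
vertices moved by `n`. Let `J` be the set of the orbits of `G` on the vertices which meet `K`; `#J ≤ κ`, as every
vertex in `K` except `x` is an end of an edge, so that its orbit meets an edge of `S`. For `c ∈ J` let
`r c ∈ K` be in the orbit `c`, and `H c` the stabilizer of `r c`; so `n ∉ H c`. For `e ∈ S`, `c, c' ∈ J` choose
`h = h(e, c, c') ∈ G` such that `s(r c, h r c')` is in the orbit of `e`, if there is such an `h`; `C` is the set of
these `h`. Let `L` be the closure. Every vertex `y ∈ K` of the orbit `c` is in `L r c`: this is clear for `y = r c₀`,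
`c₀` the orbit of `x`; if `y = l r c`, `l ∈ L`, is adjacent to `z = g r c' ∈ K` and `s(y, z)` is in the orbit of
`e ∈ S` then `s(r c, l⁻¹ g r c')` and `s(r c, h r c')` are in the same orbit, `h = h(e, c, c')`: for some `f ∈ G`
either `f r c = r c` and `f h r c' = l⁻¹ g r c'`, so `z = l f h r c'`, `f ∈ H c`; or `f r c = l⁻¹ g r c'` and
`f h r c' = r c`: then `c = c'`, `f h ∈ H c`, so `f ∈ L` and `z = l f r c`. Finally for `g ∈ G` by TRANS for `r c₀`
`n ^ k g r c₀ ∈ K`, so it is `l r c₀`, `l ∈ L`, and `l⁻¹ n ^ k g ∈ H c₀`, hence `g ∈ L`. -/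
def S_GEN : Prop :=
  ∀ (κ : Cardinal.{0}), ℵ₀ ≤ κ → ∀ (G : Type) [Group G] (n : G), n ≠ 1 → n ^ 3 = 1 →
    (∀ g, g * n = n * g) → (∀ g h : G, ∃ k : ℕ, g * h * g⁻¹ * h⁻¹ = n ^ k) →
    ∀ (V : Type) (X : SimpleGraph V) (Φ : G ≃* SimpleGraph.Iso X X) (S : Set (Sym2 V)),
      S ⊆ X.edgeSet →
      (∀ e ∈ X.edgeSet, ∃ s ∈ S, ∃ φ : SimpleGraph.Iso X X, Sym2.map (⇑φ) s = e) → #S ≤ κ →
      ∃ (J : Type) (H : J → Subgroup G) (C : Set G), #J ≤ κ ∧ #C ≤ κ ∧ (∀ j, n ∉ H j) ∧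
        Subgroup.closure (C ∪ {n} ∪ ⋃ j, (H j : Set G)) = ⊤

end Pool.Agent.Run7.h105.EO
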