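import Pool.Agent.Run7.h105.EO.I

/-! # Project EO: the piece KEY -/

set_option autoImplicit false

open Cardinal Set

noncomputable section

namespace Pool.Agent.Run7.h105.EO

theorem B_eq {Λ : Type} (A : Λ → Set Λ) (u w : Λ →₀ ZMod 3) :
    open Classical in
    B A u w = ∑ γ ∈ u.support, ∑ β ∈ w.support, if β ∈ A γ then u γ * w β else 0 := rfl

theorem B_single {Λ : Type} (A : Λ → Set Λ) (w : Λ →₀ ZMod 3) (γ : Λ) :
    open Classical in
    B A w (Finsupp.single γ 1) = ∑ β ∈ w.support, if γ ∈ A β then w β else 0 := by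
  classical
  unfold B
  rw [Finsupp.sum]
  refine Finset.sum_congr rfl fun β _ => ?_
  rw [Finsupp.sum_single_index]
  · split_ifs <;> simp
  · simp

theorem B_right {Λ : Type} (A : Λ → Set Λ) (w u : Λ →₀ ZMod 3) :
    B A w u = ∑ γ ∈ u.support, u γ * B A w (Finsupp.single γ 1) := by
  classical
  rw [B_eq, Finset.sum_comm]
  refine Finset.sum_congr rfl fun γ _ => ?_
  rw [B_single, Finset.mul_sum]
  refine Finset.sum_congr rfl fun β _ => ?_
  split_ifs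
  · rw [mul_comm]
  · simp

theorem mk_biUnion_supp {Λ ι : Type} (μ : Cardinal.{0}) (hμ : ℵ₀ < μ) (f : ι → (Λ →₀ ZMod 3))
    (h : #ι < μ) : #(⋃ i, ((f i).support : Set Λ) : Set Λ) < μ := by
  refine lt_of_le_of_lt (Cardinal.mk_iUnion_le_sum_mk (f := fun i => ((f i).support : Set Λ))) ?_
  have h1 : Cardinal.sum (fun i => #((f i).support : Set Λ)) ≤ Cardinal.sum (fun _ : ι => ℵ₀) := by
    apply Cardinal.sum_le_sum
    intro i
    exact (Cardinal.lt_aleph0_of_finite _).le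
  refine lt_of_le_of_lt h1 ?_
  rw [Cardinal.sum_const']
  exact Cardinal.mul_lt_of_lt hμ.le h hμ

theorem t_KEY (hW : S_WSEQ) : S_KEY := by
  classical
  intro κ Θ M Λ s E A h J U hJ hiso C hC
  have hκ := h.inf
  have hΘ : κ < #Θ := by rw [h.theta]; exact Order.lt_succ κ
  have hΘ0 : ℵ₀ ≤ #Θ := hκ.trans hΘ.le
  have hM : ℵ₀ < #M := hΘ0.trans_lt h.lt
  -- the small part
  set YC : Set Λ := ⋃ c : C, ((c : Λ →₀ ZMod 3).support : Set Λ) with hYC
  set YJ : J → Set Λ := fun j => if #M ≤ #(U j) then ∅ else ⋃ u : U j, ((u : Λ →₀ ZMod 3).support : Set Λ)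
    with hYJ
  set Y : Set Λ := YC ∪ ⋃ j, YJ j with hY
  have hYCc : #YC < #M := mk_biUnion_supp _ hM _ (lt_of_le_of_lt hC (hΘ.trans h.lt))
  have hYJc : ∀ j, #(YJ j) < #M := by
    intro j
    by_cases hj : #M ≤ #(U j)
    · simp only [hYJ, hj, if_true]
      rw [Cardinal.mk_eq_zero]
      exact Cardinal.aleph0_pos.trans hM
    · simp only [hYJ, hj, if_false]
      exact mk_biUnion_supp _ hM _ (not_le.1 hj)
  have hYc : #Y < #M := by
    refine lt_of_le_of_lt (Cardinal.mk_union_le _ _) ?_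
    refine Cardinal.add_lt_of_lt hM.le hYCc ?_
    refine lt_of_le_of_lt (Cardinal.mk_iUnion_le_sum_mk (f := YJ)) ?_
    exact h.sum J (fun j => #(YJ j)) hJ hYJc
  have hCY : ∀ α, α ∉ Y → ∀ c ∈ C, c α = 0 := by
    intro α hα c hc
    by_contra hne
    apply hα
    left
    exact mem_iUnion.2 ⟨⟨c, hc⟩, by simpa using hne⟩
  have hUY : ∀ α, α ∉ Y → ∀ j, ¬ #M ≤ #(U j) → ∀ u ∈ U j, u α = 0 := by
    intro α hα j hj u hu
    by_contra hne
    apply hα
    right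
    refine mem_iUnion.2 ⟨j, ?_⟩
    simp only [hYJ, hj, if_false]
    exact mem_iUnion.2 ⟨⟨u, hu⟩, by simpa using hne⟩
  by_cases hbig : ∃ j, #M ≤ #(U j)
  swap
  · have : ∃ α, α ∉ Y := by
      by_contra hall
      push Not at hall
      have : Y = Set.univ := eq_univ_of_forall hall
      rw [this, Cardinal.mk_univ] at hYc
      exact absurd hYc (not_lt.2 h.big.le)
    obtain ⟨α, hα⟩ := this
    exact ⟨α, hCY α hα, fun j u hu => hUY α hα j (fun hj => hbig ⟨j, hj⟩) u hu⟩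
  -- the colours
  let Jb := {j : J // #M ≤ #(U j)}
  have : Nonempty Jb := ⟨⟨hbig.choose, hbig.choose_spec⟩⟩
  have hJb : #Jb ≤ κ := (Cardinal.mk_subtype_le _).trans hJ
  have hprod : #(Θ × Jb) = #Θ := by
    rw [Cardinal.mk_prod, Cardinal.lift_id, Cardinal.lift_id]
    exact Cardinal.mul_eq_left hΘ0 (hJb.trans hΘ.le) (Cardinal.mk_ne_zero _)
  obtain ⟨eq⟩ := Cardinal.eq.1 hprod
  let π : Θ → Jb := fun ξ => (eq.symm ξ).2
  have hfib : ∀ j : Jb, κ < #{ξ : Θ | π ξ = j} := by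
    intro j
    refine lt_of_lt_of_le hΘ ?_
    refine Cardinal.mk_le_of_injective (f := fun ξ : Θ => (⟨eq (ξ, j), by simp [π]⟩ : {ξ : Θ | π ξ = j})) ?_
    intro a b hab
    have h1 := congrArg Subtype.val hab
    have h2 := eq.injective h1
    exact congrArg Prod.fst h2
  obtain ⟨w, hwU, hwd⟩ := hW Θ M Λ A hΘ0 h.lt h.strong h.small (fun ξ => U (π ξ).1) (fun ξ => (π ξ).2)
  have hne : ∀ ξ ν, ∃ β, β ∈ (w ξ ν).support := by
    intro ξ ν
    have h1 : (w ξ ν).support.Nonempty := Finsupp.support_nonempty_iff.2 (hwU ξ ν).2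
    exact h1
  choose e he using hne
  have htask : IsTask (fun ξ ν => (w ξ ν).support) e :=
    ⟨he, fun ξ ν ξ' ν' hn => (hwd ξ ν ξ' ν' hn).1⟩
  obtain ⟨α, hαY, Z, hDE, hA⟩ := h.task _ _ htask Y hYc
  refine ⟨α, hCY α hαY, ?_⟩
  intro j u hu
  by_contra hne
  have hj : #M ≤ #(U j) := by
    by_contra hj
    exact hne (hUY α hαY j hj u hu)
  let w' : Θ → (Λ →₀ ZMod 3) := fun ξ => w ξ (s Z ξ)
  have hpair : ∀ ξ ξ' : Θ, ξ ≠ ξ' → (ξ, s Z ξ) ≠ (ξ', s Z ξ') := fun ξ ξ' hn hp => hn (congrArg Prod.fst hp)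
  -- the exceptional places
  have hbad1 : ∀ γ, γ ≠ α → #{ξ : Θ | ∃ β ∈ (w' ξ).support, β ∈ A γ} ≤ κ := by
    intro γ hγ
    refine le_trans ?_ (h.disj α γ hγ.symm)
    have hch : ∀ ξ : {ξ : Θ | ∃ β ∈ (w' ξ).support, β ∈ A γ}, ∃ β, β ∈ (w' ξ.1).support ∧ β ∈ A γ := by
      rintro ⟨ξ, β, h1, h2⟩
      exact ⟨β, h1, h2⟩
    choose b hb using hch
    refine Cardinal.mk_le_of_injective (f := fun ξ => (⟨b ξ, hDE ξ.1 (hb ξ).1, h.sub γ (hb ξ).2⟩ :
      (E α ∩ E γ : Set Λ))) ?_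
    intro ξ ξ' hxx
    have h1 : b ξ = b ξ' := congrArg Subtype.val hxx
    by_contra hn
    have hn' : ξ.1 ≠ ξ'.1 := fun h => hn (Subtype.ext h)
    have h2 := (hwd _ _ _ _ (hpair _ _ hn')).1
    exact Finset.disjoint_left.1 h2 (hb ξ).1 (h1 ▸ (hb ξ').1)
  have hbad2 : ∀ γ, #{ξ : Θ | B A (w' ξ) (Finsupp.single γ 1) ≠ 0} ≤ κ := by
    intro γ
    refine le_trans ?_ (Cardinal.one_le_aleph0.trans hκ)
    rw [Cardinal.mk_le_one_iff_set_subsingleton]
    intro ξ hξ ξ' hξ'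
    by_contra hn
    rcases (hwd _ _ _ _ (hpair ξ ξ' hn)).2 γ with h1 | h1
    · exact hξ h1
    · exact hξ' h1
  let Bd : Set Θ := ⋃ γ : u.support, ((if (γ : Λ) = α then ∅ else {ξ : Θ | ∃ β ∈ (w' ξ).support, β ∈ A γ}) ∪
    {ξ : Θ | B A (w' ξ) (Finsupp.single (γ : Λ) 1) ≠ 0})
  have hBd : #Bd ≤ κ := by
    refine le_trans (Cardinal.mk_iUnion_le_sum_mk) ?_
    refine le_trans (Cardinal.sum_le_sum _ (fun _ => κ) ?_) ?_
    · intro γ
      refine le_trans (Cardinal.mk_union_le _ _) ?_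
      refine Cardinal.add_le_of_le hκ ?_ (hbad2 γ)
      split_ifs with hγ
      · simp
      · exact hbad1 γ hγ
    · rw [Cardinal.sum_const']
      exact Cardinal.mul_le_of_le hκ ((Cardinal.lt_aleph0_of_finite _).le.trans hκ) le_rfl
  have hex : ∃ ξ, π ξ = ⟨j, hj⟩ ∧ ξ ∉ Bd := by
    by_contra hall
    push Not at hall
    have h1 : {ξ : Θ | π ξ = ⟨j, hj⟩} ⊆ Bd := fun ξ hξ => hall ξ hξ
    exact absurd (hfib ⟨j, hj⟩) (not_lt.2 ((Cardinal.mk_le_mk_of_subset h1).trans hBd))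
  obtain ⟨ξ, hξ, hξB⟩ := hex
  have hB1 : ∀ γ ∈ u.support, γ ≠ α → ∀ β ∈ (w' ξ).support, β ∉ A γ := by
    intro γ hγ hγα β hβ hβA
    apply hξB
    refine mem_iUnion.2 ⟨⟨γ, hγ⟩, ?_⟩
    left
    rw [if_neg hγα]
    exact ⟨β, hβ, hβA⟩
  have hB2 : ∀ γ ∈ u.support, B A (w' ξ) (Finsupp.single γ 1) = 0 := by
    intro γ hγ
    by_contra hn
    apply hξB
    refine mem_iUnion.2 ⟨⟨γ, hγ⟩, ?_⟩
    right
    exact hn
  have hwj : w' ξ ∈ U j := by
    have h1 := (hwU ξ (s Z ξ)).1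
    rw [hξ] at h1
    exact h1
  have hcomm := hiso j u hu (w' ξ) hwj
  have hr : B A (w' ξ) u = 0 := by
    rw [B_right]
    exact Finset.sum_eq_zero fun γ hγ => by rw [hB2 γ hγ, mul_zero]
  have hl : B A u (w' ξ) = u α * w' ξ (e ξ (s Z ξ)) := by
    rw [B_eq]
    have hαs : α ∈ u.support := by simpa using hne
    rw [Finset.sum_eq_single_of_mem α hαs]
    · rw [Finset.sum_eq_single_of_mem (e ξ (s Z ξ)) (he ξ (s Z ξ))]
      · rw [if_pos]
        rw [hA]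
        exact ⟨ξ, rfl⟩
      · intro β hβ hβn
        rw [if_neg]
        intro hβA
        rw [hA] at hβA
        obtain ⟨ξ', hξ'⟩ := hβA
        by_cases hx : ξ' = ξ
        · subst hx
          exact hβn hξ'.symm
        · have h2 := (hwd _ _ _ _ (hpair _ _ hx)).1
          exact Finset.disjoint_left.1 h2 (he ξ' (s Z ξ')) (by simpa only [hξ'] using hβ)
    · intro γ hγ hγn
      refine Finset.sum_eq_zero fun β hβ => ?_
      rw [if_neg (hB1 γ hγ hγn β hβ)]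
  rw [hr, hl] at hcomm
  have : Fact (Nat.Prime 3) := ⟨by norm_num⟩
  rcases mul_eq_zero.1 hcomm with h1 | h1
  · exact hne h1
  · have := he ξ (s Z ξ)
    rw [Finsupp.mem_support_iff] at this
    exact this h1

end Pool.Agent.Run7.h105.EO
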